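import Pool.Agent.W603.LV.Ex

/-!
Derivations of a function field which are not zero on the constants.
-/

set_option autoImplicit false
set_option linter.unusedSectionVars false

open Polynomial FF Pool.Agent.W603.LV

namespace Pool.Agent.K4H25.VJ

variable {k K : Type*} [Field k] [Field K] [Algebra k K]

/-- a derivation on the coefficients -/
noncomputable def dC (D : Derivation ℤ k k) (p : k[X]) : k[X] :=
  ∑ i ∈ p.support, monomial i (D (p.coeff i))

theorem coeff_dC (D : Derivation ℤ k k) (p : k[X]) (i : ℕ) :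
    (dC D p).coeff i = D (p.coeff i) := by
  classical
  rw [dC, finsetSum_coeff]
  simp only [coeff_monomial]
  rw [Finset.sum_ite_eq']
  split_ifs with h
  · rfl
  · rw [notMem_support_iff.1 h, map_zero]

theorem dC_add (D : Derivation ℤ k k) (p q : k[X]) : dC D (p + q) = dC D p + dC D q := by
  ext i
  rw [coeff_dC, coeff_add, coeff_add, coeff_dC, coeff_dC, map_add]

theorem dC_monomial (D : Derivation ℤ k k) (n : ℕ) (a : k) :
    dC D (monomial n a) = monomial n (D a) := by
  classical
  ext i
  rw [coeff_dC, coeff_monomial, coeff_monomial]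
  split_ifs
  · rfl
  · rw [map_zero]

theorem dC_X_pow_mul (D : Derivation ℤ k k) (n : ℕ) (p : k[X]) :
    dC D (X ^ n * p) = X ^ n * dC D p := by
  ext i
  rw [coeff_dC, coeff_X_pow_mul', coeff_X_pow_mul']
  split_ifs
  · rw [coeff_dC]
  · rw [map_zero]

theorem der_aeval {D : Derivation ℤ k k} {δ : Derivation ℤ K K}
    (h : ∀ c, δ (algebraMap k K c) = algebraMap k K (D c)) (t : K) (p : k[X]) :
    δ (aeval t p) = aeval t (dC D p) + aeval t (derivative p) * δ t := by
  induction p using Polynomial.induction_on' with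
  | add p q hp hq =>
    rw [dC_add, derivative_add]
    simp only [map_add]
    rw [hp, hq]
    ring
  | monomial n a =>
    rw [dC_monomial, derivative_monomial, aeval_monomial, aeval_monomial, aeval_monomial,
      δ.leibniz, h, δ.leibniz_pow]
    simp only [smul_eq_mul, nsmul_eq_mul, map_mul, map_natCast]
    ring

/-- a derivation on the coefficients of a polynomial in two variables -/
noncomputable def dB (D : Derivation ℤ k k) (G : k[X][X]) : k[X][X] :=
  ∑ i ∈ G.support, monomial i (dC D (G.coeff i))

theorem dC_zero (D : Derivation ℤ k k) : dC D (0 : k[X]) = 0 := by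
  ext i
  rw [coeff_dC, coeff_zero, map_zero]

theorem coeff_dB (D : Derivation ℤ k k) (G : k[X][X]) (i : ℕ) :
    (dB D G).coeff i = dC D (G.coeff i) := by
  classical
  rw [dB, finsetSum_coeff]
  simp only [coeff_monomial]
  rw [Finset.sum_ite_eq']
  split_ifs with h
  · rfl
  · rw [notMem_support_iff.1 h, dC_zero]

theorem coeff_dX (G : k[X][X]) (i : ℕ) : (dX G).coeff i = derivative (G.coeff i) := by
  classical
  rw [dX, finsetSum_coeff]
  simp only [coeff_monomial]
  rw [Finset.sum_ite_eq']
  split_ifs with h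
  · rfl
  · rw [notMem_support_iff.1 h, derivative_zero]

theorem chain2 {D : Derivation ℤ k k} {δ : Derivation ℤ K K}
    (h : ∀ c, δ (algebraMap k K c) = algebraMap k K (D c)) (t y : K) (G : k[X][X]) :
    δ (E2 t y G) = E2 t y (dB D G) + E2 t y (dX G) * δ t + E2 t y (derivative G) * δ y := by
  induction G using Polynomial.induction_on' with
  | add p q hp hq =>
    have h1 : dB D (p + q) = dB D p + dB D q := by
      ext1 i
      rw [coeff_dB, coeff_add, coeff_add, coeff_dB, coeff_dB, dC_add]
    have h2 : dX (p + q) = dX p + dX q := by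
      ext1 i
      rw [coeff_dX, coeff_add, coeff_add, coeff_dX, coeff_dX, derivative_add]
    rw [h1, h2, derivative_add]
    simp only [map_add]
    rw [hp, hq]
    ring
  | monomial n a =>
    have h1 : dB D (monomial n a) = monomial n (dC D a) := by
      classical
      ext1 i
      rw [coeff_dB, coeff_monomial, coeff_monomial]
      split_ifs
      · rfl
      · rw [dC_zero]
    have h2 : dX (monomial n a) = monomial n (derivative a) := by
      classical
      ext1 i
      rw [coeff_dX, coeff_monomial, coeff_monomial]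
      split_ifs
      · rfl
      · rw [derivative_zero]
    rw [h1, h2, derivative_monomial, E2_monomial, E2_monomial, E2_monomial, E2_monomial,
      δ.leibniz, der_aeval h, δ.leibniz_pow]
    simp only [smul_eq_mul, nsmul_eq_mul, map_mul, map_natCast]
    ring

theorem ge_dC (P : Place k K) {D : Derivation ℤ k k} {π : K} (hπ : P.ord π = 1) (n : ℕ)
    (g : k[X]) (hg : Ge P n (aeval π g)) : Ge P n (aeval π (dC D g)) := by
  obtain ⟨h, rfl⟩ := X_pow_dvd P hπ _ g hg
  rw [dC_X_pow_mul, map_mul, map_pow, aeval_X]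
  have h5 : Ge P 1 π := Or.inr hπ.ge
  have h6 := ge_aeval P (h5.mono (by norm_num : (0 : ℤ) ≤ 1)) (dC D h)
  have := (h5.pow n).mul h6
  simpa using this

variable [CharZero k] [IsFF k K] [IsAlgClosed k]

/-- a derivation which is zero at `π` preserves the local ring -/
theorem der0_reg (P : Place k K) {π : K} (hπ : P.ord π = 1) {D : Derivation ℤ k k}
    {δ : Derivation ℤ K K} (h : ∀ c, δ (algebraMap k K c) = algebraMap k K (D c))
    (hδ : δ π = 0) {f : K} (hf : Ge P 0 f) : Ge P 0 (δ f) := by
  have hπ0 : Ge P 0 π := Or.inr (by omega)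
  have ht : Transcendental k π := P.transcendental_of_ord_ne (by omega)
  obtain ⟨G, hG, hG'⟩ := exists_poly ht f
  have hM0 : 0 ≤ P.ord (E2 π f (derivative G)) :=
    (reg_E2 P hπ0 hf (derivative G)).resolve_left hG'
  obtain ⟨M, hM⟩ := Int.eq_ofNat_of_zero_le hM0
  obtain ⟨p, hp⟩ := approx P hπ hf (M + 1)
  set q : K := aeval π p with hq
  have hq0 : Ge P 0 q := ge_aeval P hπ0 p
  have hqf : Ge P (M + 1 : ℕ) (q - f) := by
    rw [← neg_sub]; exact hp.neg
  have hDq : Ge P 0 (δ q) := by
    rw [hq, der_aeval h, hδ, mul_zero, add_zero]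
    exact ge_aeval P hπ0 _
  -- the value at `q`
  have h1 : Ge P (M + M + 1 : ℕ) (E2 π q G) := by
    obtain ⟨c, hc, e⟩ := E2_taylor P hπ0 hf hq0 G
    rw [e, hG, zero_add]
    refine Ge.add ?_ ?_
    · have : Ge P (M : ℤ) (E2 π f (derivative G)) := Or.inr hM.ge
      have := this.mul hqf
      exact this.mono (by push_cast; linarith)
    · have := hc.mul (hqf.pow 2)
      exact this.mono (by push_cast; linarith)
  have e1 : E2 π q G = aeval π (eval p G) := by
    rw [hq, E2_apply]
    exact eval₂_at_apply ((aeval π : k[X] →ₐ[k] K) : k[X] →+* K) p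
  rw [e1] at h1
  have h2 : Ge P (M + M : ℕ) (δ (aeval π (eval p G))) := by
    rw [der_aeval h, hδ, mul_zero, add_zero]
    exact (ge_dC P hπ _ _ h1).mono (by push_cast; linarith)
  rw [← e1, chain2 h π q G, hδ, mul_zero, add_zero] at h2
  -- congruences
  have h3 : Ge P (M : ℤ) (E2 π q (derivative G)) := by
    have h4 := E2_sub P hπ0 hq0 hf hqf (derivative G)
    have h5 : Ge P (M : ℤ) (E2 π f (derivative G)) := Or.inr hM.ge
    have h6 := (h4.mono (by push_cast; linarith : (M : ℤ) ≤ _)).add h5
    simpa using h6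
  have h4 : Ge P (M : ℤ) (E2 π q (dB D G)) := by
    have h5 := (h2.mono (by push_cast; linarith : (M : ℤ) ≤ _)).sub (h3.mul hDq |>.mono (by simp))
    simpa using h5
  have h5 : Ge P (M : ℤ) (E2 π f (dB D G)) := by
    have h6 := E2_sub P hπ0 hq0 hf hqf (dB D G)
    have h7 := h4.sub (h6.mono (by push_cast; linarith : (M : ℤ) ≤ _))
    simpa using h7
  have h6 := chain2 h π f G
  rw [hG, map_zero, hδ, mul_zero, add_zero] at h6
  have h7 : E2 π f (derivative G) * δ f = - E2 π f (dB D G) := by linear_combination -h6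
  have h8 : Ge P (0 + M : ℤ) (E2 π f (derivative G) * δ f) := by
    rw [h7, zero_add]; exact h5.neg
  exact Ge.of_mul' hG' hM h8

/-- a derivation which is zero at `π` does not increase poles and does not decrease zeros -/
theorem der0_ge (P : Place k K) {π : K} (hπ : P.ord π = 1) {D : Derivation ℤ k k}
    {δ : Derivation ℤ K K} (h : ∀ c, δ (algebraMap k K c) = algebraMap k K (D c))
    (hδ : δ π = 0) {f : K} {n : ℤ} (hf : Ge P n f) : Ge P n (δ f) := by
  have hπ0 : π ≠ 0 := by
    rintro rfl
    rw [P.ord_zero] at hπ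
    omega
  have h0 : ∀ m : ℤ, P.ord (π ^ m) = m := fun m => by rw [P.ord_zpow, hπ, mul_one]
  have h1 : Ge P 0 (f * π ^ (-n)) := by
    have h2 : Ge P (-n) (π ^ (-n)) := Or.inr (h0 (-n)).ge
    have := hf.mul h2
    exact this.mono (by omega)
  have h2 := der0_reg P hπ h hδ h1
  have h3 : δ (f * π ^ (-n)) = δ f * π ^ (-n) := by
    rw [δ.leibniz, Derivation.leibniz_zpow, hδ]
    simp [mul_comm]
  rw [h3] at h2
  have h4 : Ge P n (π ^ n) := Or.inr (h0 n).ge
  have h5 := h2.mul h4
  rw [mul_assoc, ← zpow_add₀ hπ0] at h5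
  simpa using h5

end Pool.Agent.K4H25.VJ
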