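import Pool.Agent.K4H25.VJ.V1

/-!
The differential `δ x dy - δ y dx`: local estimates.
-/

set_option autoImplicit false
set_option linter.unusedSectionVars false
set_option maxHeartbeats 1000000

open Polynomial FF Pool.Agent.W603.LV

namespace Pool.Agent.K4H25.VJ

variable {k K : Type*} [Field k] [Field K] [Algebra k K] [CharZero k] [IsFF k K] [IsAlgClosed k]

/-- `δ` extends `D` -/
def Ext (D : Derivation ℤ k k) (δ : Derivation ℤ K K) : Prop :=
  ∀ c, δ (algebraMap k K c) = algebraMap k K (D c)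

/-- the coefficient of the differential -/
def NN (δ : Derivation ℤ K K) (θ : Derivation k K K) (x y : K) : K := δ x * θ y - δ y * θ x

theorem NN_eq {D : Derivation ℤ k k} {δ δ' : Derivation ℤ K K} (h : Ext D δ) (h' : Ext D δ')
    (θ : Derivation k K K) (x y : K) : NN δ θ x y = NN δ' θ x y := by
  obtain ⟨t, ht⟩ := IsFF.exists_transcendental (k := k) (K := K)
  obtain ⟨cx, hx⟩ := ratio ht x
  obtain ⟨cy, hy⟩ := ratio ht y
  let Δ : Derivation k K K := Derivation.mk' { toFun := fun f => δ f - δ' f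
                                               map_add' := fun f g => by simp; ring
                                               map_smul' := fun c f => by
                                                rw [Algebra.smul_def, δ.leibniz, δ'.leibniz, h, h']
                                                simp only [smul_eq_mul, RingHom.id_apply,
                                                  Algebra.smul_def]
                                                ring } (fun f g => by
    change δ (f * g) - δ' (f * g) = f * (δ g - δ' g) + g * (δ f - δ' f)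
    rw [δ.leibniz, δ'.leibniz]
    simp only [smul_eq_mul]
    ring)
  have h1 : ∀ f, Δ f = δ f - δ' f := fun _ => rfl
  have h2 := h1 x
  have h3 := h1 y
  rw [hx] at h2
  rw [hy] at h3
  have h4 := hx θ
  have h5 := hy θ
  unfold NN
  rw [h4, h5]
  linear_combination (- cy * θ t) * h2 + (cx * θ t) * h3

/-- a local lift -/
theorem exists_local {D : Derivation ℤ k k} {δ : Derivation ℤ K K} (h : Ext D δ)
    {θ : Derivation k K K} {π : K} (hπ : θ π ≠ 0) : ∃ δ' : Derivation ℤ K K, Ext D δ' ∧ δ' π = 0 := by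
  refine ⟨δ - (δ π / θ π) • θ.restrictScalars ℤ, fun c => ?_, ?_⟩
  · change δ (algebraMap k K c) - (δ π / θ π) * θ (algebraMap k K c) = _
    rw [θ.map_algebraMap, mul_zero, sub_zero]
    exact h c
  · change δ π - (δ π / θ π) * θ π = 0
    rw [div_mul_cancel₀ _ hπ, sub_self]

theorem theta_ge (P : Place k K) {θ : Derivation k K K} (hθ : θ ≠ 0) {f : K} {n : ℤ}
    (hn : n ≤ 0 ∨ n = n) (hf : Ge P n f) : Ge P (n - 1 + vo P θ) (θ f) := by
  by_cases h0 : f = 0
  · rw [h0, map_zero]
    exact Ge.zero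
  have h1 := hf.resolve_left h0
  by_cases h2 : P.ord f = 0
  · obtain ⟨g, hg, e⟩ := der_mul P (ord_unif P) hθ (f := f) (Or.inr h2.ge)
    have h3 : Ge P (vo P θ) (θ (unif P)) := Or.inr (le_of_eq rfl)
    rw [e]
    have := h3.mul hg
    exact this.mono (by omega)
  · obtain ⟨-, h4⟩ := ord_der P hθ h2
    exact Or.inr (by omega)

theorem theta_ge0 (P : Place k K) {θ : Derivation k K K} (hθ : θ ≠ 0) {f : K}
    (hf : Ge P 0 f) : Ge P (vo P θ) (θ f) := by
  obtain ⟨g, hg, e⟩ := der_mul P (ord_unif P) hθ (f := f) hf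
  have h3 : Ge P (vo P θ) (θ (unif P)) := Or.inr (le_of_eq rfl)
  rw [e]
  have := h3.mul hg
  exact this.mono (by omega)

section

variable {D : Derivation ℤ k k} {δ : Derivation ℤ K K} (h : Ext D δ) {θ : Derivation k K K}
  (hθ : θ ≠ 0) {x y : K} (P : Place k K)

include h hθ

theorem est_reg (hx : Ge P 0 x) (hy : Ge P 0 y) : Ge P (vo P θ) (NN δ θ x y) := by
  obtain ⟨δ', h', h0⟩ := exists_local h (der_pi_ne_zero hθ P (ord_unif P))
  rw [NN_eq h h']
  have h1 := der0_ge P (ord_unif P) h' h0 hx
  have h2 := der0_ge P (ord_unif P) h' h0 hy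
  have h3 := theta_ge0 P hθ hx
  have h4 := theta_ge0 P hθ hy
  exact ((h1.mul h4).mono (by omega)).sub ((h2.mul h3).mono (by omega))

theorem est_pole {e : ℤ} (he : 1 ≤ e) (hx : Ge P (-e) x) (hy : Ge P (-e) y) :
    Ge P (-3 * e + vo P θ) (NN δ θ x y) := by
  obtain ⟨δ', h', h0⟩ := exists_local h (der_pi_ne_zero hθ P (ord_unif P))
  rw [NN_eq h h']
  have h1 := der0_ge P (ord_unif P) h' h0 hx
  have h2 := der0_ge P (ord_unif P) h' h0 hy
  have h3 := theta_ge P hθ (Or.inr rfl) hx
  have h4 := theta_ge P hθ (Or.inr rfl) hy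
  exact ((h1.mul h4).mono (by omega)).sub ((h2.mul h3).mono (by omega))

theorem est_fixed {a b : k} (ha : D a = 0) (hb : D b = 0) {m1 m2 : ℤ} 
    (hx : Ge P m1 (x - algebraMap k K a)) (hy : Ge P m2 (y - algebraMap k K b)) :
    Ge P (m1 + m2 - 1 + vo P θ) (NN δ θ x y) := by
  obtain ⟨δ', h', h0⟩ := exists_local h (der_pi_ne_zero hθ P (ord_unif P))
  rw [NN_eq h h']
  have h1 := der0_ge P (ord_unif P) h' h0 hx
  have h2 := der0_ge P (ord_unif P) h' h0 hy
  have h3 := theta_ge P hθ (Or.inr rfl) hx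
  have h4 := theta_ge P hθ (Or.inr rfl) hy
  rw [map_sub, h', ha, map_zero, sub_zero] at h1
  rw [map_sub, h', hb, map_zero, sub_zero] at h2
  rw [map_sub, θ.map_algebraMap, sub_zero] at h3 h4
  exact ((h1.mul h4).mono (by omega)).sub ((h2.mul h3).mono (by omega))

theorem est_move {a b : k} {m1 m2 : ℤ} (hm1 : 1 ≤ m1) (hm2 : 1 ≤ m2)
    (hx : Ge P m1 (x - algebraMap k K a)) (hy : Ge P m2 (y - algebraMap k K b)) :
    Ge P (min m1 m2 - 1 + vo P θ) (NN δ θ x y) := by
  obtain ⟨δ', h', h0⟩ := exists_local h (der_pi_ne_zero hθ P (ord_unif P))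
  rw [NN_eq h h']
  have hx0 : Ge P 0 x := by
    have := (hx.mono (by omega : (0 : ℤ) ≤ m1)).add (Ge.const (P := P) a)
    simpa using this
  have hy0 : Ge P 0 y := by
    have := (hy.mono (by omega : (0 : ℤ) ≤ m2)).add (Ge.const (P := P) b)
    simpa using this
  have h1 := der0_ge P (ord_unif P) h' h0 hx0
  have h2 := der0_ge P (ord_unif P) h' h0 hy0
  have h3 := theta_ge P hθ (Or.inr rfl) hx
  have h4 := theta_ge P hθ (Or.inr rfl) hy
  rw [map_sub, θ.map_algebraMap, sub_zero] at h3 h4
  exact ((h1.mul h4).mono (by omega)).sub ((h2.mul h3).mono (by omega))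

end

end Pool.Agent.K4H25.VJ
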