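import Pool.Agent.K4H25.VJ.V2

/-!
The differential `δ x dy - δ y dx`: the degree, and when it is not zero.
-/

set_option autoImplicit false
set_option linter.unusedSectionVars false
set_option maxHeartbeats 1000000

open Polynomial FF Pool.Agent.W603.LV

namespace Pool.Agent.K4H25.VJ

section

variable {k K : Type*} [Field k] [Field K] [Algebra k K]

/-- the order of the pole of the map `(1 : x : y)`: the intersection number of the place with the
line at infinity -/
def pole (x y : K) (P : Place k K) : ℤ := max 0 (max (-P.ord x) (-P.ord y))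

open scoped Classical in
/-- the multiplicity of the curve at the point `(a, b)` in the place `P` -/
noncomputable def mult (x y : K) (a b : k) (P : Place k K) : ℤ :=
  if 0 < P.ord (x - algebraMap k K a) ∧ 0 < P.ord (y - algebraMap k K b) then
    min (P.ord (x - algebraMap k K a)) (P.ord (y - algebraMap k K b)) else 0

end

variable {k K : Type*} [Field k] [Field K] [Algebra k K] [CharZero k] [IsFF k K] [IsAlgClosed k]

/-- the places over the point `(a, b)` -/
def ovr (x y : K) (a b : k) : Set (Place k K) :=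
  {P | 0 < P.ord (x - algebraMap k K a) ∧ 0 < P.ord (y - algebraMap k K b)}

/-- **The inequality**, if the differential is not zero. -/
theorem ineq {r : ℕ} {a b : Fin r → k} (hab : ∀ i j, a i = a j → i = j) {x y : K}
    (i : Fin r) {D : Derivation ℤ k k} {δ : Derivation ℤ K K} (h : Ext D δ)
    (hD : ∀ j, j ≠ i → D (a j) = 0 ∧ D (b j) = 0) {θ : Derivation k K K} (hθ : θ ≠ 0)
    (hN : NN δ θ x y ≠ 0) :
    ∑ᶠ P : Place k K, (-3 * pole x y P + ∑ j, mult x y (a j) (b j) P) ≤
      canDeg k K + (ovr x y (a i) (b i) : Set (Place k K)).ncard := by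
  classical
  -- the finite set of the relevant places
  have hfin : ∀ f : K, {P : Place k K | P.ord f ≠ 0}.Finite := fun f => finite_support f
  have hfo : (ovr x y (a i) (b i) : Set (Place k K)).Finite :=
    (hfin (x - algebraMap k K (a i))).subset fun P hP => hP.1.ne'
  have hT' : ({P : Place k K | P.ord (NN δ θ x y) ≠ 0} ∪ {P : Place k K | vo P θ ≠ 0} ∪
      {P : Place k K | P.ord x ≠ 0} ∪ {P : Place k K | P.ord y ≠ 0} ∪
      (⋃ j, {P : Place k K | P.ord (x - algebraMap k K (a j)) ≠ 0})).Finite :=
    ((((hfin _).union (vo_finite hθ)).union (hfin _)).union (hfin _)).union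
      (Set.finite_iUnion fun j => hfin _)
  obtain ⟨T, hT⟩ : ∃ T : Finset (Place k K), T = hT'.toFinset := ⟨_, rfl⟩
  have hmem : ∀ P, P ∈ T ↔ ((((P.ord (NN δ θ x y) ≠ 0 ∨ vo P θ ≠ 0) ∨ P.ord x ≠ 0) ∨
      P.ord y ≠ 0) ∨ ∃ j, P.ord (x - algebraMap k K (a j)) ≠ 0) := by
    intro P
    rw [hT, Set.Finite.mem_toFinset]
    simp only [Set.mem_union, Set.mem_iUnion, Set.mem_ofPred_eq]
  have hsupp : ∀ P, -3 * pole x y P + ∑ j, mult x y (a j) (b j) P ≠ 0 → P ∈ T := by
    intro P hP
    by_contra hcon
    rw [hmem] at hcon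
    push Not at hcon
    obtain ⟨⟨⟨⟨-, -⟩, h3⟩, h4⟩, h5⟩ := hcon
    apply hP
    have h6 : pole x y P = 0 := by
      unfold pole
      rw [h3, h4]
      simp
    have h7 : ∀ j, mult x y (a j) (b j) P = 0 := by
      intro j
      unfold mult
      rw [if_neg]
      rintro ⟨h8, -⟩
      exact h8.ne' (h5 j)
    rw [h6, Finset.sum_eq_zero fun j _ => h7 j]
    simp
  rw [finsum_eq_sum_of_support_subset (s := T) _ (fun P hP => hsupp P hP)]
  have hs1 : ∑ P ∈ T, P.ord (NN δ θ x y) = 0 :=
    sum_ord_finset _ T fun P hP => (hmem P).2 (Or.inl (Or.inl (Or.inl (Or.inl hP))))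
  have hs2 : ∑ P ∈ T, vo P θ = - canDeg k K :=
    canDeg_finset hθ T fun P hP => (hmem P).2 (Or.inl (Or.inl (Or.inl (Or.inr hP))))
  have hs3 : ∑ P ∈ T, (if P ∈ ovr x y (a i) (b i) then (1 : ℤ) else 0) =
      (ovr x y (a i) (b i) : Set (Place k K)).ncard := by
    rw [Set.ncard_eq_toFinset_card _ hfo, Finset.sum_ite, Finset.sum_const_zero, add_zero,
      Finset.sum_const, nsmul_eq_mul, mul_one]
    congr 2
    ext P
    rw [Finset.mem_filter, Set.Finite.mem_toFinset]
    exact ⟨fun h => h.2, fun h => ⟨(hmem P).2 (Or.inr ⟨i, h.1.ne'⟩), h⟩⟩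
  have hloc : ∀ P : Place k K, -3 * pole x y P + ∑ j, mult x y (a j) (b j) P ≤
      P.ord (NN δ θ x y) - vo P θ + (if P ∈ ovr x y (a i) (b i) then (1 : ℤ) else 0) := by
    intro P
    have hge : ∀ {n : ℤ}, Ge P n (NN δ θ x y) → n ≤ P.ord (NN δ θ x y) :=
      fun h => h.resolve_left hN
    have hge' : ∀ (f : K) (n : ℤ), n ≤ P.ord f → Ge P n f := fun f n h => Or.inr h
    have hnn : (0 : ℤ) ≤ (if P ∈ ovr x y (a i) (b i) then (1 : ℤ) else 0) := by
      split_ifs <;> omega
    -- the multiplicity at one point at most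
    by_cases hj : ∃ j, P ∈ ovr x y (a j) (b j)
    · obtain ⟨j, hj⟩ := hj
      have hother : ∀ l, l ≠ j → mult x y (a l) (b l) P = 0 := by
        intro l hl
        unfold mult
        rw [if_neg]
        rintro ⟨h1, -⟩
        apply hl
        apply hab
        by_contra hne
        have h2 : Ge P 1 (x - algebraMap k K (a l) - (x - algebraMap k K (a j))) :=
          (hge' _ 1 h1).sub (hge' _ 1 hj.1)
        have h3 : x - algebraMap k K (a l) - (x - algebraMap k K (a j)) =
            algebraMap k K (a j - a l) := by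
          rw [map_sub]
          ring
        have h4 : a j - a l ≠ 0 := sub_ne_zero.2 fun h => hne h.symm
        rw [h3] at h2
        rcases h2 with h2 | h2
        · exact h4 ((map_eq_zero _).1 h2)
        · rw [P.ord_const h4] at h2
          omega
      have hsum : ∑ l, mult x y (a l) (b l) P = mult x y (a j) (b j) P :=
        Finset.sum_eq_single_of_mem j (Finset.mem_univ j) fun l _ hl => hother l hl
      have hmj : mult x y (a j) (b j) P = min (P.ord (x - algebraMap k K (a j)))
          (P.ord (y - algebraMap k K (b j))) := if_pos hj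
      have hp0 : 0 ≤ pole x y P := le_max_left _ _
      have h1 : (0 : ℤ) < P.ord (x - algebraMap k K (a j)) := hj.1
      have h2 : (0 : ℤ) < P.ord (y - algebraMap k K (b j)) := hj.2
      rw [hsum, hmj]
      by_cases hji : j = i
      · subst hji
        rw [if_pos hj]
        have h3 := hge (est_move h hθ P (a := a j) (b := b j) h1 h2 (hge' _ _ le_rfl)
          (hge' _ _ le_rfl))
        omega
      · have h3 := hge (est_fixed h hθ P (hD j hji).1 (hD j hji).2 (hge' _ _ le_rfl)
          (hge' _ _ le_rfl))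
        have h4 : min (P.ord (x - algebraMap k K (a j))) (P.ord (y - algebraMap k K (b j))) ≤
            P.ord (x - algebraMap k K (a j)) + P.ord (y - algebraMap k K (b j)) - 1 := by
          omega
        omega
    · push Not at hj
      have hsum : ∑ l, mult x y (a l) (b l) P = 0 :=
        Finset.sum_eq_zero fun l _ => if_neg (hj l)
      rw [hsum, add_zero, if_neg (hj i), add_zero]
      rcases (le_max_left 0 (max (-P.ord x) (-P.ord y)) : (0 : ℤ) ≤ pole x y P).lt_or_eq with
        hp | hp
      · have h1 : -pole x y P ≤ P.ord x := by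
          unfold pole
          omega
        have h2 : -pole x y P ≤ P.ord y := by
          unfold pole
          omega
        have h3 := hge (est_pole h hθ P (e := pole x y P) hp (hge' _ _ h1) (hge' _ _ h2))
        omega
      · have h0 : pole x y P = 0 := hp.symm
        have h1 : 0 ≤ P.ord x := by
          unfold pole at h0
          omega
        have h2 : 0 ≤ P.ord y := by
          unfold pole at h0
          omega
        have h3 := hge (est_reg h hθ P (hge' _ _ h1) (hge' _ _ h2))
        omega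
  calc ∑ P ∈ T, (-3 * pole x y P + ∑ j, mult x y (a j) (b j) P)
      ≤ ∑ P ∈ T, (P.ord (NN δ θ x y) - vo P θ +
          (if P ∈ ovr x y (a i) (b i) then (1 : ℤ) else 0)) :=
        Finset.sum_le_sum fun P _ => hloc P
    _ = canDeg k K + (ovr x y (a i) (b i) : Set (Place k K)).ncard := by
        rw [Finset.sum_add_distrib, Finset.sum_sub_distrib, hs1, hs2, hs3]
        ring

/-- all coefficients of a relation are zero -/
theorem rel_zero {x y : K} {a b : k} {P : Place k K} (hP : P ∈ ovr x y a b)
    {D1 D2 : Derivation ℤ k k} {δ1 δ2 : Derivation ℤ K K} (h1 : Ext D1 δ1) (h2 : Ext D2 δ2)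
    (h1a : D1 a = 1) (h1b : D1 b = 0) (h2a : D2 a = 0) (h2b : D2 b = 1)
    (e1x : δ1 x = 0) (e1y : δ1 y = 0) (e2x : δ2 x = 0) (e2y : δ2 y = 0) (n : ℕ) :
    ∀ G : k[X][X], E2 (x - algebraMap k K a) (y - algebraMap k K b) G = 0 →
      ∀ i j, i + j ≤ n → (G.coeff j).coeff i = 0 := by
  obtain ⟨u, hu⟩ : ∃ u, u = x - algebraMap k K a := ⟨_, rfl⟩
  obtain ⟨v, hv⟩ : ∃ v, v = y - algebraMap k K b := ⟨_, rfl⟩
  rw [← hu, ← hv]
  have hu1 : Ge P 1 u := Or.inr (by rw [hu]; exact hP.1)
  have hv1 : Ge P 1 v := Or.inr (by rw [hv]; exact hP.2)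
  have d1u : δ1 u = -1 := by rw [hu, map_sub, e1x, h1, h1a, map_one, zero_sub]
  have d1v : δ1 v = 0 := by rw [hv, map_sub, e1y, h1, h1b, map_zero, sub_zero]
  have d2u : δ2 u = 0 := by rw [hu, map_sub, e2x, h2, h2a, map_zero, sub_zero]
  have d2v : δ2 v = -1 := by rw [hv, map_sub, e2y, h2, h2b, map_one, zero_sub]
  induction n with
  | zero =>
    intro G hG i j hij
    obtain rfl : i = 0 := by omega
    obtain rfl : j = 0 := by omega
    have hu0 : Ge P 0 u := hu1.mono (by omega)
    have h3 := E2_sub P hu0 (hv1.mono (by omega)) (Ge.zero (P := P) (N := 0)) (N := 1)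
      (by rw [sub_zero]; exact hv1) G
    rw [hG, zero_sub] at h3
    have h4 : E2 u (0 : K) G = aeval u (G.coeff 0) := by
      rw [E2_apply, eval₂_at_zero]
      rfl
    rw [h4] at h3
    have h5 : aeval u (G.coeff 0) = aeval u ((G.coeff 0).divX) * u +
        algebraMap k K ((G.coeff 0).coeff 0) := by
      conv_lhs => rw [← divX_mul_X_add (G.coeff 0)]
      simp
    have h6 : Ge P 1 (aeval u ((G.coeff 0).divX) * u) := by
      have := (ge_aeval P hu0 ((G.coeff 0).divX)).mul hu1
      exact this.mono (by omega)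
    have h7 : Ge P 1 (algebraMap k K ((G.coeff 0).coeff 0)) := by
      have := (h3.neg).sub h6
      rw [neg_neg, h5] at this
      simpa using this
    by_contra h0
    rcases h7 with h7 | h7
    · exact h0 ((map_eq_zero _).1 h7)
    · rw [P.ord_const h0] at h7
      omega
  | succ n ih =>
    intro G hG i j hij
    have hc : CharZero k := inferInstance
    by_cases hle : i + j ≤ n
    · exact ih G hG i j hle
    rcases Nat.eq_zero_or_pos i with hi | hi
    · obtain ⟨j', rfl⟩ : ∃ j', j = j' + 1 := ⟨j - 1, by omega⟩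
      have h3 := chain2 h2 u v G
      rw [hG, map_zero, d2u, d2v, mul_zero, add_zero, mul_neg, mul_one] at h3
      have h4 : E2 u v (dB D2 G - derivative G) = 0 := by
        rw [map_sub]
        linear_combination -h3
      have h5 := ih _ h4 i j' (by omega)
      rw [coeff_sub, coeff_sub, coeff_dB, coeff_dC, ih G hG i j' (by omega), map_zero, zero_sub,
        coeff_derivative, neg_eq_zero] at h5
      have h6 : (G.coeff (j' + 1) * ((j' : k[X]) + 1)).coeff i =
          (G.coeff (j' + 1)).coeff i * ((j' : k) + 1) := by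
        have h7 : ((j' : k[X]) + 1) = C ((j' : k) + 1) := by simp
        rw [h7, coeff_mul_C]
      rw [h6] at h5
      exact (mul_eq_zero.1 h5).resolve_right (by exact_mod_cast Nat.succ_ne_zero j')
    · obtain ⟨i', rfl⟩ : ∃ i', i = i' + 1 := ⟨i - 1, by omega⟩
      have h3 := chain2 h1 u v G
      rw [hG, map_zero, d1u, d1v, mul_zero, add_zero, mul_neg, mul_one] at h3
      have h4 : E2 u v (dB D1 G - dX G) = 0 := by
        rw [map_sub]
        linear_combination -h3
      have h5 := ih _ h4 i' j (by omega)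
      rw [coeff_sub, coeff_sub, coeff_dB, coeff_dC, ih G hG i' j (by omega), map_zero, zero_sub,
        coeff_dX, coeff_derivative, neg_eq_zero] at h5
      exact (mul_eq_zero.1 h5).resolve_right (by exact_mod_cast Nat.succ_ne_zero i')

/-- one of the two differentials is not zero -/
theorem exists_ne {x y : K} {a b : k} {P : Place k K} (hP : P ∈ ovr x y a b)
    {D1 D2 : Derivation ℤ k k} {δ1 δ2 : Derivation ℤ K K} (h1 : Ext D1 δ1) (h2 : Ext D2 δ2)
    (h1a : D1 a = 1) (h1b : D1 b = 0) (h2a : D2 a = 0) (h2b : D2 b = 1)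
    {θ : Derivation k K K} (hθ : θ ≠ 0) (hx : Transcendental k x) :
    NN δ1 θ x y ≠ 0 ∨ NN δ2 θ x y ≠ 0 := by
  by_contra hcon
  push Not at hcon
  obtain ⟨c1, c2⟩ := hcon
  have hθx := der_ne_zero hθ hx
  obtain ⟨δ1', h1', e1x⟩ := exists_local h1 hθx
  obtain ⟨δ2', h2', e2x⟩ := exists_local h2 hθx
  rw [NN_eq h1 h1', NN, e1x, zero_mul, zero_sub, neg_eq_zero] at c1
  rw [NN_eq h2 h2', NN, e2x, zero_mul, zero_sub, neg_eq_zero] at c2
  have e1y := (mul_eq_zero.1 c1).resolve_right hθx
  have e2y := (mul_eq_zero.1 c2).resolve_right hθx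
  have hta : Transcendental k (x - algebraMap k K a) := by
    intro halg
    apply hx
    have := halg.add (isAlgebraic_algebraMap (R := k) (A := K) a)
    simpa using this
  obtain ⟨G, hG, hG'⟩ := exists_poly hta (y - algebraMap k K b)
  apply hG'
  have hG0 : G = 0 := by
    ext j i
    rw [coeff_zero, coeff_zero]
    exact rel_zero hP h1' h2' h1a h1b h2a h2b e1x e1y e2x e2y (i + j) G hG i j le_rfl
  rw [hG0, derivative_zero, map_zero]

end Pool.Agent.K4H25.VJ
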