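import Pool.Agent.K4H25.VJ.V3
import Pool.Agent.W602.GT.Der

/-!
Existence of the derivations.
-/

set_option autoImplicit false
set_option linter.unusedSectionVars false
set_option maxHeartbeats 1000000

open Polynomial FF Pool.Agent.W603.LV

namespace Pool.Agent.K4H25.VJ

variable {k K : Type} [Field k] [Field K] [Algebra k K]

theorem dC_mul (D : Derivation ℤ k k) (p q : k[X]) :
    dC D (p * q) = p * dC D q + q * dC D p := by
  ext n
  rw [coeff_dC, coeff_mul, map_sum, coeff_add, coeff_mul, mul_comm q, coeff_mul,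
    ← Finset.sum_add_distrib]
  refine Finset.sum_congr rfl fun x _ => ?_
  rw [D.leibniz, coeff_dC, coeff_dC]
  simp only [smul_eq_mul]
  ring

/-- the derivation of the polynomial ring -/
noncomputable def dCder (D : Derivation ℤ k k) : Derivation ℤ k[X] k[X] :=
  Derivation.mk' (AddMonoidHom.toIntLinearMap (AddMonoidHom.mk' (dC D) (dC_add D))) fun p q => by
    change dC D (p * q) = p • dC D q + q • dC D p
    rw [dC_mul, smul_eq_mul, smul_eq_mul]

theorem dCder_apply (D : Derivation ℤ k k) (p : k[X]) : dCder D p = dC D p := rfl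

variable [CharZero k] [IsFF k K]

theorem exists_ext (D : Derivation ℤ k k) : ∃ δ : Derivation ℤ K K,
    ∀ c, δ (algebraMap k K c) = algebraMap k K (D c) := by
  obtain ⟨t, ht⟩ := IsFF.exists_transcendental (k := k) (K := K)
  have hinj : Function.Injective (aeval t : k[X] →ₐ[k] K) := transcendental_iff_injective.1 ht
  let _ : Algebra k[X] K := ((aeval t : k[X] →ₐ[k] K) : k[X] →+* K).toAlgebra
  have hst : IsScalarTower k k[X] K := IsScalarTower.of_algebraMap_eq' (by
    ext c
    simp [RingHom.algebraMap_toAlgebra])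
  have hfs : FaithfulSMul k[X] K := (faithfulSMul_iff_algebraMap_injective _ _).2 hinj
  have halg : Algebra.IsAlgebraic k[X] K := by
    constructor
    intro f
    obtain ⟨G, hG, hG'⟩ := exists_poly ht f
    refine ⟨G, ?_, hG⟩
    rintro rfl
    apply hG'
    rw [derivative_zero, map_zero]
  let _ : Algebra (FractionRing k[X]) K := FractionRing.liftAlgebra k[X] K
  have hst2 : IsScalarTower k[X] (FractionRing k[X]) K := inferInstance
  have halg2 : Algebra.IsAlgebraic (FractionRing k[X]) K :=
    (IsFractionRing.comap_isAlgebraic_iff (A := k[X]) (K := FractionRing k[X]) (C := K)).1 halg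
  have hchar : CharZero (FractionRing k[X]) := inferInstance
  have hsep : Algebra.IsSeparable (FractionRing k[X]) K := inferInstance
  have h1 : Algebra.FormallyEtale (FractionRing k[X]) K := Algebra.FormallyEtale.of_isSeparable _ _
  have h2 : Algebra.FormallyEtale k[X] (FractionRing k[X]) :=
    Algebra.FormallyEtale.of_isLocalization (nonZeroDivisors k[X])
  have h3 : Algebra.FormallyEtale k[X] K := Algebra.FormallyEtale.comp k[X] (FractionRing k[X]) K
  let e := KaehlerDifferential.tensorKaehlerEquivOfFormallyEtale ℤ k[X] K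
  let d : Derivation ℤ k[X] K := (Algebra.linearMap k[X] K).compDer (dCder D)
  let l : Ω[k[X]⁄ℤ] →ₗ[k[X]] K := d.liftKaehlerDifferential
  let Λ : Ω[K⁄ℤ] →ₗ[K] K := (LinearMap.liftBaseChange K l).comp e.symm.toLinearMap
  refine ⟨Λ.compDer (KaehlerDifferential.D ℤ K), fun c => ?_⟩
  have h5 : algebraMap k K c = algebraMap k[X] K (C c) := by
    rw [RingHom.algebraMap_toAlgebra]
    simp
  change LinearMap.liftBaseChange K l (e.symm (KaehlerDifferential.D ℤ K (algebraMap k K c))) = _
  rw [h5, KaehlerDifferential.tensorKaehlerEquivOfFormallyEtale_symm_D_algebraMap]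
  have h6 : d (C c) = algebraMap k K (D c) := by
    change algebraMap k[X] K (dC D (C c)) = _
    rw [← monomial_zero_left, dC_monomial, monomial_zero_left, RingHom.algebraMap_toAlgebra]
    simp
  simp [l, h6]

/-- a derivation with given values on algebraically independent elements -/
theorem exists_D {ι : Type} {c : ι → k} (hc : AlgebraicIndependent ℚ c) (i : ι) :
    ∃ D : Derivation ℤ k k, D (c i) = 1 ∧ ∀ j, j ≠ i → D (c j) = 0 := by
  classical
  have hr : AlgebraicIndepOn ℚ id (Set.range c) := hc.to_subtype_range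
  obtain ⟨t, hst, ht⟩ := exists_isTranscendenceBasis_superset hr
  obtain ⟨D, hD⟩ := Pool.Agent.W602.GT.exists_der (fun z : t => (z : k)) ht
    (fun z => if (z : k) = c i then 1 else 0)
  refine ⟨D.restrictScalars ℤ, ?_, fun j hj => ?_⟩
  · have h1 := hD ⟨c i, hst ⟨i, rfl⟩⟩
    rw [if_pos rfl] at h1
    exact h1
  · have h1 := hD ⟨c j, hst ⟨j, rfl⟩⟩
    rw [if_neg fun h => hj (hc.injective h)] at h1
    exact h1

/-- **The inequality for the blow-up of the plane at generic points.** -/
theorem main [IsAlgClosed k] {r : ℕ} {a b : Fin r → k}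
    (hgen : AlgebraicIndependent ℚ (Sum.elim a b : Fin r ⊕ Fin r → k)) {x y : K}
    (hx : Transcendental k x) (i : Fin r) (hi : (ovr x y (a i) (b i) : Set (Place k K)).Nonempty) :
    ∑ᶠ P : Place k K, (-3 * pole x y P + ∑ j, mult x y (a j) (b j) P) ≤
      canDeg k K + (ovr x y (a i) (b i) : Set (Place k K)).ncard := by
  obtain ⟨P, hP⟩ := hi
  obtain ⟨D1, h1, h1'⟩ := exists_D hgen (Sum.inl i)
  obtain ⟨D2, h2, h2'⟩ := exists_D hgen (Sum.inr i)
  obtain ⟨δ1, e1⟩ := exists_ext (K := K) D1
  obtain ⟨δ2, e2⟩ := exists_ext (K := K) D2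
  obtain ⟨θ, hθ⟩ := Pool.Agent.W603.LV.exists_der (k := k) (K := K)
  have hab : ∀ i j, a i = a j → i = j := fun i j h =>
    Sum.inl_injective (hgen.injective (a₁ := Sum.inl i) (a₂ := Sum.inl j) h)
  rcases exists_ne (P := P) hP e1 e2 h1 (h1' (Sum.inr i) (by simp)) (h2' (Sum.inl i) (by simp)) h2
    hθ hx with h | h
  · exact ineq hab i e1 (fun j hj => ⟨h1' (Sum.inl j) (by simpa using hj), h1' (Sum.inr j)
      (by simp)⟩) hθ h
  · exact ineq hab i e2 (fun j hj => ⟨h2' (Sum.inl j) (by simp), h2' (Sum.inr j)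
      (by simpa using hj)⟩) hθ h

end Pool.Agent.K4H25.VJ
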