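import Pool.Agent.K4H25.VJ.V4

/-!
Products of two hyperelliptic curves.
-/

set_option autoImplicit false
set_option linter.unusedSectionVars false
set_option maxHeartbeats 1000000

open Polynomial FF Pool.Agent.W603.LV

namespace Pool.Agent.K4H25.VJ

/-- a derivation with given values on algebraically independent elements, zero on a subfield -/
theorem exists_D' {k0 k : Type} [Field k0] [Field k] [Algebra k0 k] [CharZero k0] {ι : Type}
    {c : ι → k} (hc : AlgebraicIndependent k0 c) (i : ι) :
    ∃ D : Derivation ℤ k k, (∀ e : k0, D (algebraMap k0 k e) = 0) ∧ D (c i) = 1 ∧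
      ∀ j, j ≠ i → D (c j) = 0 := by
  classical
  have hr : AlgebraicIndepOn k0 id (Set.range c) := hc.to_subtype_range
  obtain ⟨t, hst, ht⟩ := exists_isTranscendenceBasis_superset hr
  obtain ⟨D, hD⟩ := Pool.Agent.W602.GT.exists_der (fun z : t => (z : k)) ht
    (fun z => if (z : k) = c i then 1 else 0)
  refine ⟨D.restrictScalars ℤ, fun e => D.map_algebraMap e, ?_, fun j hj => ?_⟩
  · have h1 := hD ⟨c i, hst ⟨i, rfl⟩⟩
    rw [if_pos rfl] at h1
    exact h1
  · have h1 := hD ⟨c j, hst ⟨j, rfl⟩⟩
    rw [if_neg fun h => hj (hc.injective h)] at h1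
    exact h1

variable {k K : Type} [Field k] [Field K] [Algebra k K]

/-- the pole order -/
def po (x : K) (P : Place k K) : ℤ := max 0 (-P.ord x)

/-- a hyperelliptic curve -/
structure Hyp (k : Type) [Field k] [Algebra k K] (g : ℕ) (R : Finset k) (x w : K) : Prop where
  card : R.card = 2 * g + 2
  eq : w ^ 2 = ∏ e ∈ R, (x - algebraMap k K e)
  tr : Transcendental k x

variable {g : ℕ} {R : Finset k} {x w : K}

theorem Hyp.sub_ne (h : Hyp k g R x w) (e : k) : x - algebraMap k K e ≠ 0 := by
  intro h0
  apply h.tr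
  rw [sub_eq_zero.1 h0]
  exact isAlgebraic_algebraMap _

theorem Hyp.w_ne (h : Hyp k g R x w) : w ≠ 0 := by
  rintro rfl
  have h1 := h.eq
  rw [zero_pow two_ne_zero] at h1
  obtain ⟨e, -, he⟩ := Finset.prod_eq_zero_iff.1 h1.symm
  exact h.sub_ne e he

theorem ord_prod' (P : Place k K) {ι : Type} (s : Finset ι) (f : ι → K) (hf : ∀ i ∈ s, f i ≠ 0) :
    P.ord (∏ i ∈ s, f i) = ∑ i ∈ s, P.ord (f i) := by
  classical
  induction s using Finset.induction_on with
  | empty => rw [Finset.prod_empty, Finset.sum_empty, P.ord_one]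
  | insert a s ha ih =>
    rw [Finset.prod_insert ha, Finset.sum_insert ha, P.ord_mul (hf a (Finset.mem_insert_self a s))
      (Finset.prod_ne_zero_iff.2 fun i hi => hf i (Finset.mem_insert_of_mem hi)),
      ih fun i hi => hf i (Finset.mem_insert_of_mem hi)]

theorem Hyp.ord (h : Hyp k g R x w) (P : Place k K) :
    2 * P.ord w = ∑ e ∈ R, P.ord (x - algebraMap k K e) := by
  have h1 := congrArg P.ord h.eq
  rw [ord_prod' P _ _ fun e _ => h.sub_ne e, P.ord_pow] at h1
  push_cast at h1
  exact h1

theorem ord_sub_pole (P : Place k K) {x : K} (e : k) (hx : P.ord x < 0) :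
    P.ord (x - algebraMap k K e) = P.ord x := by
  have hx0 : x ≠ 0 := by
    rintro rfl
    rw [P.ord_zero] at hx
    omega
  by_cases he : e = 0
  · rw [he, map_zero, sub_zero]
  · have h1 : algebraMap k K (-e) ≠ 0 := by
      rw [Ne, map_eq_zero]
      exact neg_ne_zero.2 he
    obtain ⟨-, h2⟩ := P.ord_add_eq hx0 h1 (by
      rw [P.ord_const (neg_ne_zero.2 he)]
      exact hx)
    rw [map_neg, ← sub_eq_add_neg] at h2
    exact h2

/-- the order of `w` -/
theorem Hyp.cases (h : Hyp k g R x w) (P : Place k K) :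
    (P.ord x < 0 ∧ P.ord w = (g + 1) * P.ord x) ∨
    (0 ≤ P.ord x ∧ P.ord w = 0) ∨
    (0 ≤ P.ord x ∧ ∃ e ∈ R, 1 ≤ P.ord w ∧ P.ord (x - algebraMap k K e) = 2 * P.ord w) := by
  classical
  have h1 := h.ord P
  rcases lt_or_ge (P.ord x) 0 with hx | hx
  · left
    refine ⟨hx, ?_⟩
    rw [Finset.sum_congr rfl fun e _ => ord_sub_pole P e hx, Finset.sum_const, h.card,
      nsmul_eq_mul] at h1
    push_cast at h1
    linarith
  · right
    have hge : ∀ e : k, 0 ≤ P.ord (x - algebraMap k K e) := by
      intro e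
      have hx' : Ge P 0 x := Or.inr hx
      have h2 : Ge P 0 (x - algebraMap k K e) := hx'.sub (Ge.const (P := P) e)
      exact h2.resolve_left (h.sub_ne e)
    by_cases hex : ∃ e ∈ R, P.ord (x - algebraMap k K e) ≠ 0
    · obtain ⟨e, he, he0⟩ := hex
      have hother : ∀ e' ∈ R, e' ≠ e → P.ord (x - algebraMap k K e') = 0 := by
        intro e' _ hne
        by_contra hcon
        have h3 := hge e
        have h4 := hge e'
        have h51 : Ge P 1 (x - algebraMap k K e') := Or.inr (by omega)
        have h52 : Ge P 1 (x - algebraMap k K e) := Or.inr (by omega)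
        have h5 : Ge P 1 (x - algebraMap k K e' - (x - algebraMap k K e)) := h51.sub h52
        have h6 : x - algebraMap k K e' - (x - algebraMap k K e) = algebraMap k K (e - e') := by
          rw [map_sub]
          ring
        have h7 : e - e' ≠ 0 := sub_ne_zero.2 fun h => hne h.symm
        rw [h6] at h5
        rcases h5 with h5 | h5
        · exact h7 ((map_eq_zero _).1 h5)
        · rw [P.ord_const h7] at h5
          omega
      rw [Finset.sum_eq_single_of_mem e he hother] at h1
      right
      have h3 := hge e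
      exact ⟨hx, e, he, by omega, h1.symm⟩
    · push Not at hex
      left
      rw [Finset.sum_eq_zero hex] at h1
      exact ⟨hx, by omega⟩

theorem ge_div (P : Place k K) {f w : K} {n : ℤ} (hw : w ≠ 0) (hf : Ge P n f) :
    Ge P (n - P.ord w) (f / w) := by
  have h1 : Ge P (-P.ord w) (w⁻¹) := Or.inr (by rw [P.ord_inv])
  have := hf.mul h1
  rw [← div_eq_mul_inv] at this
  exact this.mono (by omega)

variable [CharZero k] [IsFF k K] [IsAlgClosed k]

/-- the form `dx / w` is regular, with zeros at infinity: for `δ` -/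
theorem Hyp.delta (h : Hyp k g R x w) (P : Place k K) {D : Derivation ℤ k k}
    {δ : Derivation ℤ K K} (hδ : Ext D δ) (h0 : δ (unif P) = 0) (hR : ∀ e ∈ R, D e = 0) :
    Ge P ((g - 1) * po x P) (δ x / w) := by
  have hw := h.w_ne
  have hge : ∀ (f : K) (n : ℤ), n ≤ P.ord f → Ge P n f := fun f n h => Or.inr h
  rcases h.cases P with ⟨h1, h2⟩ | ⟨h1, h2⟩ | ⟨h1, e, he, h2, h3⟩
  · have h4 := ge_div P hw (der0_ge P (ord_unif P) hδ h0 (hge x _ le_rfl))
    refine h4.mono ?_
    have h5 : po x P = -P.ord x := by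
      unfold po
      omega
    rw [h5, h2]
    nlinarith
  · have h4 := ge_div P hw (der0_ge P (ord_unif P) hδ h0 (hge x _ h1))
    refine h4.mono ?_
    have h5 : po x P = 0 := by
      unfold po
      omega
    rw [h5, h2]
    omega
  · have h4 := ge_div P hw (der0_ge P (ord_unif P) hδ h0 (hge (x - algebraMap k K e) _ le_rfl))
    rw [map_sub, hδ, hR e he, map_zero, sub_zero] at h4
    refine h4.mono ?_
    have h5 : po x P = 0 := by
      unfold po
      omega
    rw [h5, h3]
    omega

/-- the form `dx / w` is regular, with zeros at infinity -/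
theorem Hyp.theta (h : Hyp k g R x w) (P : Place k K) {θ : Derivation k K K} (hθ : θ ≠ 0) :
    Ge P ((g - 1) * po x P + vo P θ) (θ x / w) := by
  have hw := h.w_ne
  have hge : ∀ (f : K) (n : ℤ), n ≤ P.ord f → Ge P n f := fun f n h => Or.inr h
  rcases h.cases P with ⟨h1, h2⟩ | ⟨h1, h2⟩ | ⟨h1, e, he, h2, h3⟩
  · have h4 := ge_div P hw (theta_ge P hθ (Or.inr rfl) (hge x _ le_rfl))
    refine h4.mono ?_
    have h5 : po x P = -P.ord x := by
      unfold po
      omega
    rw [h5, h2]
    nlinarith
  · have h4 := ge_div P hw (theta_ge0 P hθ (hge x _ h1))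
    refine h4.mono ?_
    have h5 : po x P = 0 := by
      unfold po
      omega
    rw [h5, h2]
    omega
  · have h4 := ge_div P hw (theta_ge P hθ (Or.inr rfl) (hge (x - algebraMap k K e) _ le_rfl))
    rw [map_sub, θ.map_algebraMap, sub_zero] at h4
    refine h4.mono ?_
    have h5 : po x P = 0 := by
      unfold po
      omega
    rw [h5, h3]
    omega

end Pool.Agent.K4H25.VJ
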