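import Pool.Agent.K4H25.VJ.V5

/-!
Canonical degrees of curves on the blow-up of a product of two hyperelliptic curves.
-/

set_option autoImplicit false
set_option linter.unusedSectionVars false
set_option maxHeartbeats 1000000

open Polynomial FF Pool.Agent.W603.LV

namespace Pool.Agent.K4H25.VJ

variable {k K : Type} [Field k] [Field K] [Algebra k K] [CharZero k] [IsFF k K] [IsAlgClosed k]
  {g g' : ℕ} {R R' : Finset k} {x w y w' : K}

theorem sum_le {F : K} (hF : F ≠ 0) {θ : Derivation k K K} (hθ : θ ≠ 0) (κ : Place k K → ℤ)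
    (hκ : ∀ P, κ P ≤ P.ord F - vo P θ) (hfin : {P | κ P ≠ 0}.Finite) :
    ∑ᶠ P, κ P ≤ canDeg k K := by
  classical
  have hT' := ((finite_support (k := k) F).union (vo_finite hθ)).union hfin
  obtain ⟨T, hT⟩ : ∃ T : Finset (Place k K), T = hT'.toFinset := ⟨_, rfl⟩
  have hmem : ∀ P, P ∈ T ↔ ((P.ord F ≠ 0 ∨ vo P θ ≠ 0) ∨ κ P ≠ 0) := by
    intro P
    rw [hT, Set.Finite.mem_toFinset]
    exact Iff.rfl
  rw [finsum_eq_sum_of_support_subset (s := T) _ (fun P hP => (hmem P).2 (Or.inr hP))]
  have hs1 : ∑ P ∈ T, P.ord F = 0 :=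
    sum_ord_finset _ T fun P hP => (hmem P).2 (Or.inl (Or.inl hP))
  have hs2 : ∑ P ∈ T, vo P θ = - canDeg k K :=
    canDeg_finset hθ T fun P hP => (hmem P).2 (Or.inl (Or.inr hP))
  calc ∑ P ∈ T, κ P ≤ ∑ P ∈ T, (P.ord F - vo P θ) := Finset.sum_le_sum fun P _ => hκ P
    _ = canDeg k K := by
        rw [Finset.sum_sub_distrib, hs1, hs2]
        ring

theorem po_finite (x : K) : {P : Place k K | po x P ≠ 0}.Finite := by
  refine (finite_support (k := k) x).subset fun P hP h0 => hP ?_
  have h1 : P.ord x = 0 := h0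
  unfold po
  rw [h1]
  simp

theorem finsum_mul_po (c : ℤ) (x : K) :
    ∑ᶠ P : Place k K, c * po x P = c * ∑ᶠ P : Place k K, po x P := by
  classical
  have hfin := po_finite (k := k) x
  rw [finsum_eq_sum_of_support_subset (s := hfin.toFinset) (fun P => c * po x P)
    (fun P hP => by
      rw [Finset.mem_coe, Set.Finite.mem_toFinset]
      intro h0
      apply hP
      change c * po x P = 0
      rw [h0, mul_zero]),
    finsum_eq_sum_of_support_subset (s := hfin.toFinset) (fun P => po x P)
    (fun P hP => by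
      rw [Finset.mem_coe, Set.Finite.mem_toFinset]
      exact hP), Finset.mul_sum]

/-- Riemann-Hurwitz -/
theorem Hyp.rh (h : Hyp k g R x w) : (g - 1) * ∑ᶠ P : Place k K, po x P ≤ canDeg k K := by
  obtain ⟨θ, hθ⟩ := Pool.Agent.W603.LV.exists_der (k := k) (K := K)
  have hF : θ x / w ≠ 0 := div_ne_zero (der_ne_zero hθ h.tr) h.w_ne
  have h1 := sum_le hF hθ (fun P => ((g : ℤ) - 1) * po x P) (fun P => by
    have := (h.theta P hθ).resolve_left hF
    omega) ((po_finite (k := k) x).subset fun P hP h0 => hP (by
      change ((g : ℤ) - 1) * po x P = 0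
      rw [h0, mul_zero]))
  rw [← finsum_mul_po]
  exact h1

/-- the number of the points over a point is at most the degree -/
theorem card_ovr_le {a b : k} (hx : Transcendental k x) :
    ((ovr x y a b : Set (Place k K)).ncard : ℤ) ≤ ∑ᶠ P : Place k K, po x P := by
  classical
  have hf0 : x - algebraMap k K a ≠ 0 := by
    intro h0
    apply hx
    rw [sub_eq_zero.1 h0]
    exact isAlgebraic_algebraMap _
  have hT' := (finite_support (k := k) x).union (finite_support (k := k) (x - algebraMap k K a))
  obtain ⟨T, hT⟩ : ∃ T : Finset (Place k K), T = hT'.toFinset := ⟨_, rfl⟩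
  have hmem : ∀ P, P ∈ T ↔ (P.ord x ≠ 0 ∨ P.ord (x - algebraMap k K a) ≠ 0) := by
    intro P
    rw [hT, Set.Finite.mem_toFinset]
    exact Iff.rfl
  have hfo : (ovr x y a b : Set (Place k K)).Finite :=
    (finite_support (k := k) (x - algebraMap k K a)).subset fun P hP => hP.1.ne'
  rw [finsum_eq_sum_of_support_subset (s := T) _ (fun P hP => (hmem P).2 (Or.inl fun h0 => hP (by
    change po x P = 0
    unfold po
    rw [h0]
    simp)))]
  have hs1 : ∑ P ∈ T, P.ord (x - algebraMap k K a) = 0 :=
    sum_ord_finset _ T fun P hP => (hmem P).2 (Or.inr hP)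
  have hs3 : ∑ P ∈ T, (if P ∈ ovr x y a b then (1 : ℤ) else 0) =
      (ovr x y a b : Set (Place k K)).ncard := by
    rw [Set.ncard_eq_toFinset_card _ hfo, Finset.sum_ite, Finset.sum_const_zero, add_zero,
      Finset.sum_const, nsmul_eq_mul, mul_one]
    congr 2
    ext P
    rw [Finset.mem_filter, Set.Finite.mem_toFinset]
    exact ⟨fun h => h.2, fun h => ⟨(hmem P).2 (Or.inr h.1.ne'), h⟩⟩
  have hloc : ∀ P : Place k K, (if P ∈ ovr x y a b then (1 : ℤ) else 0) ≤
      P.ord (x - algebraMap k K a) + po x P := by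
    intro P
    have h1 : -po x P ≤ P.ord (x - algebraMap k K a) := by
      rcases lt_or_ge (P.ord x) 0 with h | h
      · rw [ord_sub_pole P a h]
        unfold po
        omega
      · have h2 : Ge P 0 x := Or.inr h
        have h3 := (h2.sub (Ge.const (P := P) a)).resolve_left hf0
        unfold po
        omega
    split_ifs with h2
    · have h3 : (0 : ℤ) < P.ord (x - algebraMap k K a) := h2.1
      have h4 : (0 : ℤ) ≤ po x P := le_max_left _ _
      omega
    · omega
  rw [← hs3]
  calc ∑ P ∈ T, (if P ∈ ovr x y a b then (1 : ℤ) else 0)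
      ≤ ∑ P ∈ T, (P.ord (x - algebraMap k K a) + po x P) := Finset.sum_le_sum fun P _ => hloc P
    _ = ∑ P ∈ T, po x P := by rw [Finset.sum_add_distrib, hs1, zero_add]

/-- **The inequality**, if the differential is not zero. -/
theorem ineq2 {r : ℕ} {a b : Fin r → k} (hab : ∀ i j, a i = a j → i = j)
    (h1 : Hyp k g R x w) (h2 : Hyp k g' R' y w') (haR : ∀ j, a j ∉ R) (hbR : ∀ j, b j ∉ R')
    (i : Fin r) {D : Derivation ℤ k k} {δ : Derivation ℤ K K} (h : Ext D δ)
    (hD : ∀ j, j ≠ i → D (a j) = 0 ∧ D (b j) = 0) (hDR : ∀ e ∈ R, D e = 0)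
    (hDR' : ∀ e ∈ R', D e = 0) {θ : Derivation k K K} (hθ : θ ≠ 0) (hN : NN δ θ x y ≠ 0) :
    ∑ᶠ P : Place k K, ((g - 1) * po x P + (g' - 1) * po y P + ∑ j, mult x y (a j) (b j) P) ≤
      canDeg k K + (ovr x y (a i) (b i) : Set (Place k K)).ncard := by
  classical
  have hw := h1.w_ne
  have hw' := h2.w_ne
  have hF : NN δ θ x y / (w * w') ≠ 0 := div_ne_zero hN (mul_ne_zero hw hw')
  have hfo : (ovr x y (a i) (b i) : Set (Place k K)).Finite :=
    (finite_support (k := k) (x - algebraMap k K (a i))).subset fun P hP => hP.1.ne'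
  have hmfin : {P : Place k K | (g - 1) * po x P + (g' - 1) * po y P +
      ∑ j, mult x y (a j) (b j) P ≠ 0}.Finite := by
    refine (((po_finite (k := k) x).union (po_finite (k := k) y)).union
      (Set.finite_iUnion fun j => finite_support (k := k) (x - algebraMap k K (a j)))).subset
      fun P hP => ?_
    by_contra hcon
    simp only [Set.mem_union, Set.mem_iUnion, Set.mem_ofPred_eq, not_or, not_exists, not_not,
      Function.mem_support] at hcon
    apply hP
    have hm0 : ∀ j, mult x y (a j) (b j) P = 0 := fun j =>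
      if_neg fun hm => hm.1.ne' (hcon.2 j)
    rw [hcon.1.1, hcon.1.2, Finset.sum_eq_zero fun j _ => hm0 j]
    simp
  have hifin : {P : Place k K | (if P ∈ ovr x y (a i) (b i) then (1 : ℤ) else 0) ≠ 0}.Finite :=
    hfo.subset fun P hP => by
      by_contra hcon
      exact hP (if_neg hcon)
  have hind : ∑ᶠ P : Place k K, (if P ∈ ovr x y (a i) (b i) then (1 : ℤ) else 0) =
      (ovr x y (a i) (b i) : Set (Place k K)).ncard := by
    rw [finsum_eq_sum_of_support_subset (s := hfo.toFinset) _ (fun P hP => by
      rw [Finset.mem_coe, Set.Finite.mem_toFinset]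
      by_contra hcon
      exact hP (if_neg hcon))]
    rw [Finset.sum_congr rfl fun P hP => if_pos ((Set.Finite.mem_toFinset hfo).1 hP),
      Finset.sum_const, nsmul_eq_mul, mul_one, Set.ncard_eq_toFinset_card _ hfo]
  have hmain := sum_le hF hθ (fun P => ((g - 1) * po x P + (g' - 1) * po y P +
      ∑ j, mult x y (a j) (b j) P) - (if P ∈ ovr x y (a i) (b i) then (1 : ℤ) else 0))
    (fun P => ?_) ((hmfin.union hifin).subset fun P hP => ?_)
  · rw [finsum_sub_distrib hmfin hifin, hind] at hmain
    linarith
  · -- the local estimate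
    have hge : ∀ {n : ℤ}, Ge P n (NN δ θ x y / (w * w')) → n ≤ P.ord (NN δ θ x y / (w * w')) :=
      fun h => h.resolve_left hF
    have hge' : ∀ (f : K) (n : ℤ), n ≤ P.ord f → Ge P n f := fun f n h => Or.inr h
    by_cases hj : ∃ j, P ∈ ovr x y (a j) (b j)
    · obtain ⟨j, hj⟩ := hj
      have hother : ∀ l, l ≠ j → mult x y (a l) (b l) P = 0 := by
        intro l hl
        unfold mult
        rw [if_neg]
        rintro ⟨h3, -⟩
        apply hl
        apply hab
        by_contra hne
        have h4 : Ge P 1 (x - algebraMap k K (a l) - (x - algebraMap k K (a j))) :=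
          (hge' _ 1 h3).sub (hge' _ 1 hj.1)
        have h5 : x - algebraMap k K (a l) - (x - algebraMap k K (a j)) =
            algebraMap k K (a j - a l) := by
          rw [map_sub]
          ring
        have h6 : a j - a l ≠ 0 := sub_ne_zero.2 fun h => hne h.symm
        rw [h5] at h4
        rcases h4 with h4 | h4
        · exact h6 ((map_eq_zero _).1 h4)
        · rw [P.ord_const h6] at h4
          omega
      have hsum : ∑ l, mult x y (a l) (b l) P = mult x y (a j) (b j) P :=
        Finset.sum_eq_single_of_mem j (Finset.mem_univ j) fun l _ hl => hother l hl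
      have hmj : mult x y (a j) (b j) P = min (P.ord (x - algebraMap k K (a j)))
          (P.ord (y - algebraMap k K (b j))) := if_pos hj
      have h3 : (0 : ℤ) < P.ord (x - algebraMap k K (a j)) := hj.1
      have h4 : (0 : ℤ) < P.ord (y - algebraMap k K (b j)) := hj.2
      -- the functions `w` are units
      have hunit : ∀ {g : ℕ} {R : Finset k} {x w : K}, Hyp k g R x w → ∀ c : k, c ∉ R →
          0 < P.ord (x - algebraMap k K c) → P.ord w = 0 ∧ po x P = 0 := by
        intro g R x w hh c hc hpos
        have hx0 : Ge P 0 x := by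
          have := ((hge' _ _ hpos.le : Ge P 0 (x - algebraMap k K c))).add
            (Ge.const (P := P) c)
          simpa using this
        have hx0' : 0 ≤ P.ord x := hx0.resolve_left fun h0 => hh.tr (by
          rw [h0]
          exact isAlgebraic_zero)
        have hpo : po x P = 0 := by
          unfold po
          omega
        refine ⟨?_, hpo⟩
        rcases hh.cases P with ⟨h5, -⟩ | ⟨-, h5⟩ | ⟨-, e, he, h5, h6⟩
        · omega
        · exact h5
        · exfalso
          apply hc
          have hec : c = e := by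
            by_contra hne
            have h7 : Ge P 1 (x - algebraMap k K c) := hge' _ _ hpos
            have h8 : Ge P 1 (x - algebraMap k K e) := hge' _ _ (by omega)
            have h9 := h7.sub h8
            have h10 : x - algebraMap k K c - (x - algebraMap k K e) =
                algebraMap k K (e - c) := by
              rw [map_sub]
              ring
            have h11 : e - c ≠ 0 := sub_ne_zero.2 fun h => hne h.symm
            rw [h10] at h9
            rcases h9 with h9 | h9
            · exact h11 ((map_eq_zero _).1 h9)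
            · rw [P.ord_const h11] at h9
              omega
          rw [hec]
          exact he
      obtain ⟨hw0, hpx⟩ := hunit h1 (a j) (haR j) h3
      obtain ⟨hw0', hpy⟩ := hunit h2 (b j) (hbR j) h4
      have hordF : P.ord (NN δ θ x y / (w * w')) = P.ord (NN δ θ x y) := by
        rw [P.ord_div hN (mul_ne_zero hw hw'), P.ord_mul hw hw', hw0, hw0']
        ring
      rw [hsum, hmj, hordF, hpx, hpy, mul_zero, mul_zero]
      by_cases hji : j = i
      · subst hji
        rw [if_pos hj]
        have h5 := (est_move h hθ P (a := a j) (b := b j) h3 h4 (hge' _ _ le_rfl)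
          (hge' _ _ le_rfl)).resolve_left hN
        omega
      · have h5 := (est_fixed h hθ P (hD j hji).1 (hD j hji).2 (hge' _ _ le_rfl)
          (hge' _ _ le_rfl)).resolve_left hN
        have h6 : min (P.ord (x - algebraMap k K (a j))) (P.ord (y - algebraMap k K (b j))) ≤
            P.ord (x - algebraMap k K (a j)) + P.ord (y - algebraMap k K (b j)) - 1 := by
          omega
        have hnn : (0 : ℤ) ≤ (if P ∈ ovr x y (a i) (b i) then (1 : ℤ) else 0) := by
          split_ifs <;> omega
        omega
    · push Not at hj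
      have hsum : ∑ l, mult x y (a l) (b l) P = 0 :=
        Finset.sum_eq_zero fun l _ => if_neg (hj l)
      rw [hsum, if_neg (hj i), add_zero, sub_zero]
      obtain ⟨δ', h', h0⟩ := exists_local h (der_pi_ne_zero hθ P (ord_unif P))
      have h3 := h1.delta P h' h0 hDR
      have h4 := h2.delta P h' h0 hDR'
      have h5 := h1.theta P hθ
      have h6 := h2.theta P hθ
      have h7 : NN δ θ x y / (w * w') = δ' x / w * (θ y / w') - δ' y / w' * (θ x / w) := by
        rw [NN_eq h h', NN]
        field_simp
      have h8 : Ge P ((g - 1) * po x P + (g' - 1) * po y P + vo P θ)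
          (NN δ θ x y / (w * w')) := by
        rw [h7]
        exact ((h3.mul h6).mono (by linarith)).sub ((h4.mul h5).mono (by linarith))
      have h9 := hge h8
      linarith
  · by_contra hcon
    simp only [Set.mem_union, Set.mem_ofPred_eq, not_or, not_not] at hcon
    apply hP
    change _ - _ = (0 : ℤ)
    rw [hcon.1, hcon.2, sub_zero]

/-- **Vojta's inequality.** -/
theorem main2 {k0 : Type} [Field k0] [CharZero k0] [Algebra k0 k] {r : ℕ} {a b : Fin r → k}
    (hgen : AlgebraicIndependent k0 (Sum.elim a b : Fin r ⊕ Fin r → k))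
    (h1 : Hyp k g R x w) (h2 : Hyp k g' R' y w') (hR : ∀ e ∈ R, ∃ c : k0, algebraMap k0 k c = e)
    (hR' : ∀ e ∈ R', ∃ c : k0, algebraMap k0 k c = e) (hg : 2 ≤ g) :
    ∑ᶠ P : Place k K, ((g - 1) * po x P + (g' - 1) * po y P + ∑ j, mult x y (a j) (b j) P) ≤
      2 * canDeg k K := by
  classical
  have hab : ∀ i j, a i = a j → i = j := fun i j h =>
    Sum.inl_injective (hgen.injective (a₁ := Sum.inl i) (a₂ := Sum.inl j) h)
  have hnot : ∀ (z : Fin r ⊕ Fin r) (c : k0), algebraMap k0 k c ≠ Sum.elim a b z := by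
    intro z c hc
    have h3 := hgen.transcendental z
    rw [← hc] at h3
    exact h3 (isAlgebraic_algebraMap _)
  have haR : ∀ j, a j ∉ R := fun j hj => by
    obtain ⟨c, hc⟩ := hR _ hj
    exact hnot (Sum.inl j) c hc
  have hbR : ∀ j, b j ∉ R' := fun j hj => by
    obtain ⟨c, hc⟩ := hR' _ hj
    exact hnot (Sum.inr j) c hc
  have hrh1 := h1.rh
  have hrh2 := h2.rh
  have hpo0 : 0 ≤ ∑ᶠ P : Place k K, po x P := finsum_nonneg fun P => le_max_left _ _
  by_cases hex : ∃ i, (ovr x y (a i) (b i) : Set (Place k K)).Nonempty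
  · obtain ⟨i, P, hP⟩ := hex
    obtain ⟨D1, c1, d1, d1'⟩ := exists_D' hgen (Sum.inl i)
    obtain ⟨D2, c2, d2, d2'⟩ := exists_D' hgen (Sum.inr i)
    obtain ⟨δ1, e1⟩ := exists_ext (K := K) D1
    obtain ⟨δ2, e2⟩ := exists_ext (K := K) D2
    obtain ⟨θ, hθ⟩ := Pool.Agent.W603.LV.exists_der (k := k) (K := K)
    have hkill : ∀ (D : Derivation ℤ k k), (∀ e : k0, D (algebraMap k0 k e) = 0) →
        ∀ S : Finset k, (∀ e ∈ S, ∃ c : k0, algebraMap k0 k c = e) → ∀ e ∈ S, D e = 0 := by
      intro D hD S hS e he
      obtain ⟨c, rfl⟩ := hS e he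
      exact hD c
    have hle : ∑ᶠ P : Place k K, ((g - 1) * po x P + (g' - 1) * po y P +
        ∑ j, mult x y (a j) (b j) P) ≤
        canDeg k K + (ovr x y (a i) (b i) : Set (Place k K)).ncard := by
      rcases exists_ne (P := P) hP e1 e2 d1 (d1' (Sum.inr i) (by simp))
        (d2' (Sum.inl i) (by simp)) d2 hθ h1.tr with h | h
      · exact ineq2 hab h1 h2 haR hbR i e1 (fun j hj => ⟨d1' (Sum.inl j) (by simpa using hj),
          d1' (Sum.inr j) (by simp)⟩) (hkill D1 c1 R hR) (hkill D1 c1 R' hR') hθ h
      · exact ineq2 hab h1 h2 haR hbR i e2 (fun j hj => ⟨d2' (Sum.inl j) (by simp),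
          d2' (Sum.inr j) (by simpa using hj)⟩) (hkill D2 c2 R hR) (hkill D2 c2 R' hR') hθ h
    have hc := card_ovr_le (y := y) (a := a i) (b := b i) h1.tr
    have hg' : (1 : ℤ) ≤ (g : ℤ) - 1 := by
      have : (2 : ℤ) ≤ g := by exact_mod_cast hg
      omega
    nlinarith
  · push Not at hex
    have h3 : ∀ P : Place k K, (((g : ℤ) - 1) * po x P + (g' - 1) * po y P +
        ∑ j, mult x y (a j) (b j) P) = ((g : ℤ) - 1) * po x P + (g' - 1) * po y P := by
      intro P
      have hm0 : ∀ j, mult x y (a j) (b j) P = 0 := fun j => if_neg fun hm => by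
        have h4 := hex j
        rw [Set.eq_empty_iff_forall_notMem] at h4
        exact h4 P hm
      rw [Finset.sum_eq_zero fun j _ => hm0 j, add_zero]
    simp only [h3]
    rw [finsum_add_distrib ((po_finite (k := k) x).subset fun P hP h0 => hP (by
        change ((g : ℤ) - 1) * po x P = 0
        rw [h0, mul_zero])) ((po_finite (k := k) y).subset fun P hP h0 => hP (by
        change ((g' : ℤ) - 1) * po y P = 0
        rw [h0, mul_zero])), finsum_mul_po, finsum_mul_po]
    linarith

end Pool.Agent.K4H25.VJ
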