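import Pool.Agent.K4H25.VJ.V6

/-!
The first inequality for blow-ups of products of two hyperelliptic curves, of any genus.
-/

set_option autoImplicit false
set_option linter.unusedSectionVars false
set_option maxHeartbeats 1000000

open Polynomial FF Pool.Agent.W603.LV

namespace Pool.Agent.K4H25.VJ

variable {k K : Type} [Field k] [Field K] [Algebra k K] [CharZero k] [IsFF k K] [IsAlgClosed k]
  {g g' : ℕ} {R R' : Finset k} {x w y w' : K}

theorem main1 {k0 : Type} [Field k0] [CharZero k0] [Algebra k0 k] {r : ℕ} {a b : Fin r → k}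
    (hgen : AlgebraicIndependent k0 (Sum.elim a b : Fin r ⊕ Fin r → k))
    (h1 : Hyp k g R x w) (h2 : Hyp k g' R' y w') (hR : ∀ e ∈ R, ∃ c : k0, algebraMap k0 k c = e)
    (hR' : ∀ e ∈ R', ∃ c : k0, algebraMap k0 k c = e) (i : Fin r)
    (hi : (ovr x y (a i) (b i) : Set (Place k K)).Nonempty) :
    ∑ᶠ P : Place k K, ((g - 1) * po x P + (g' - 1) * po y P + ∑ j, mult x y (a j) (b j) P) ≤
      canDeg k K + (ovr x y (a i) (b i) : Set (Place k K)).ncard := by
  classical
  have hab : ∀ i j, a i = a j → i = j := fun i j h =>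
    Sum.inl_injective (hgen.injective (a₁ := Sum.inl i) (a₂ := Sum.inl j) h)
  have hnot : ∀ (z : Fin r ⊕ Fin r) (c : k0), algebraMap k0 k c ≠ Sum.elim a b z := by
    intro z c hc
    have h3 := hgen.transcendental z
    rw [← hc] at h3
    exact h3 (isAlgebraic_algebraMap _)
  have haR : ∀ j, a j ∉ R := fun j hj => by
    obtain ⟨c, hc⟩ := hR _ hj
    exact hnot (Sum.inl j) c hc
  have hbR : ∀ j, b j ∉ R' := fun j hj => by
    obtain ⟨c, hc⟩ := hR' _ hj
    exact hnot (Sum.inr j) c hc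
  obtain ⟨P, hP⟩ := hi
  obtain ⟨D1, c1, d1, d1'⟩ := exists_D' hgen (Sum.inl i)
  obtain ⟨D2, c2, d2, d2'⟩ := exists_D' hgen (Sum.inr i)
  obtain ⟨δ1, e1⟩ := exists_ext (K := K) D1
  obtain ⟨δ2, e2⟩ := exists_ext (K := K) D2
  obtain ⟨θ, hθ⟩ := Pool.Agent.W603.LV.exists_der (k := k) (K := K)
  have hkill : ∀ (D : Derivation ℤ k k), (∀ e : k0, D (algebraMap k0 k e) = 0) →
      ∀ S : Finset k, (∀ e ∈ S, ∃ c : k0, algebraMap k0 k c = e) → ∀ e ∈ S, D e = 0 := by
    intro D hD S hS e he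
    obtain ⟨c, rfl⟩ := hS e he
    exact hD c
  rcases exists_ne (P := P) hP e1 e2 d1 (d1' (Sum.inr i) (by simp))
    (d2' (Sum.inl i) (by simp)) d2 hθ h1.tr with h | h
  · exact ineq2 hab h1 h2 haR hbR i e1 (fun j hj => ⟨d1' (Sum.inl j) (by simpa using hj),
      d1' (Sum.inr j) (by simp)⟩) (hkill D1 c1 R hR) (hkill D1 c1 R' hR') hθ h
  · exact ineq2 hab h1 h2 haR hbR i e2 (fun j hj => ⟨d2' (Sum.inl j) (by simp),
      d2' (Sum.inr j) (by simpa using hj)⟩) (hkill D2 c2 R hR) (hkill D2 c2 R' hR') hθ h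

theorem finsum_mono {α : Type} {f f' : α → ℤ} (hf : (Function.support f).Finite)
    (hf' : (Function.support f').Finite) (h : ∀ P, f P ≤ f' P) : ∑ᶠ P, f P ≤ ∑ᶠ P, f' P := by
  have hsub := finsum_sub_distrib hf' hf
  have hnn : 0 ≤ ∑ᶠ P, (f' P - f P) := finsum_nonneg (fun P => sub_nonneg.2 (h P))
  exact sub_nonneg.1 (hnn.trans_eq hsub)

open scoped Classical in
theorem finsum_ind {α : Type} {s : Set α} (hs : s.Finite) :
    ∑ᶠ P, (if P ∈ s then (1 : ℤ) else 0) = s.ncard := by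
  rw [finsum_eq_sum_of_support_subset (s := hs.toFinset) _ (fun P hP => by
    rw [Finset.mem_coe, Set.Finite.mem_toFinset]
    by_contra hcon
    exact hP (if_neg hcon))]
  rw [Finset.sum_congr rfl fun P hP => if_pos ((Set.Finite.mem_toFinset hs).1 hP),
    Finset.sum_const, nsmul_eq_mul, mul_one, Set.ncard_eq_toFinset_card _ hs]

end Pool.Agent.K4H25.VJ
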